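import Pool.Agent.H104.ML.Stm

/-!
# Project ML (helper104), job RES2: resultants of cyclotomic polynomials
-/

set_option autoImplicit false

open Polynomial Finset MeasureTheory

namespace Pool.Agent.Q79.ML

open Pool.Agent.H104.ML

theorem cyc_prod (b : ℕ) (hb : b ≠ 0) :
    cyclotomic b ℂ = ∏ w ∈ primitiveRoots b ℂ, (X - C w) :=
  cyclotomic_eq_prod_X_sub_primitiveRoots (Complex.isPrimitiveRoot_exp b hb)

theorem eval_cyc (b : ℕ) (hb : b ≠ 0) (z : ℂ) :
    (cyclotomic b ℂ).eval z = ∏ w ∈ primitiveRoots b ℂ, (z - w) := by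
  rw [cyc_prod b hb, eval_prod]
  simp

theorem eval_cyc_zero (b : ℕ) (hb : b ≠ 0) (z : ℂ) (hz : z ∈ primitiveRoots b ℂ) :
    (cyclotomic b ℂ).eval z = 0 := by
  rw [eval_cyc b hb]
  exact Finset.prod_eq_zero hz (sub_self z)

theorem eval_der (b : ℕ) (hb : b ≠ 0) (z : ℂ) (hz : z ∈ primitiveRoots b ℂ) :
    (derivative (cyclotomic b ℂ)).eval z = ∏ w ∈ (primitiveRoots b ℂ).erase z, (z - w) := by
  rw [cyc_prod b hb, ← Finset.mul_prod_erase _ _ hz, derivative_mul]
  simp [eval_prod]

theorem RR_ne (b c : ℕ) (hc : c ≠ 0) (hbc : b ≠ c) :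
    RR b c = ∏ z ∈ primitiveRoots b ℂ, ‖(cyclotomic c ℂ).eval z‖ := by
  unfold RR
  refine Finset.prod_congr rfl fun z hz => ?_
  rw [eval_cyc c hc, norm_prod, Finset.erase_eq_of_notMem]
  intro h
  exact hbc ((isPrimitiveRoot_of_mem_primitiveRoots hz).unique
    (isPrimitiveRoot_of_mem_primitiveRoots h))

theorem RR_self (b : ℕ) (hb : b ≠ 0) :
    RR b b = ∏ z ∈ primitiveRoots b ℂ, ‖(derivative (cyclotomic b ℂ)).eval z‖ := by
  unfold RR
  refine Finset.prod_congr rfl fun z hz => ?_
  rw [eval_der b hb z hz, norm_prod]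

theorem RR_pos (b c : ℕ) : 0 < RR b c := by
  unfold RR
  refine Finset.prod_pos fun z _ => Finset.prod_pos fun w hw => ?_
  rw [norm_pos_iff, sub_ne_zero]
  exact (Finset.ne_of_mem_erase hw).symm

theorem RR_comm (b c : ℕ) (hbc : b ≠ c) : RR b c = RR c b := by
  have h1 : ∀ b c : ℕ, b ≠ c →
      RR b c = ∏ z ∈ primitiveRoots b ℂ, ∏ w ∈ primitiveRoots c ℂ, ‖z - w‖ := by
    intro b c hbc
    unfold RR
    refine Finset.prod_congr rfl fun z hz => ?_
    rw [Finset.erase_eq_of_notMem]
    intro h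
    exact hbc ((isPrimitiveRoot_of_mem_primitiveRoots hz).unique
      (isPrimitiveRoot_of_mem_primitiveRoots h))
  rw [h1 b c hbc, h1 c b hbc.symm, Finset.prod_comm]
  exact Finset.prod_congr rfl fun z _ => Finset.prod_congr rfl fun w _ => norm_sub_rev _ _

theorem key (b p : ℕ) (hp : p.Prime) (hpb : ¬ p ∣ b) (z : ℂ) :
    (derivative (cyclotomic (b * p) ℂ)).eval z * (cyclotomic b ℂ).eval z +
      (cyclotomic (b * p) ℂ).eval z * (derivative (cyclotomic b ℂ)).eval z =
      (derivative (cyclotomic b ℂ)).eval (z ^ p) * (p * z ^ (p - 1)) := by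
  have h := cyclotomic_expand_eq_cyclotomic_mul hp hpb ℂ
  have h2 := congrArg (fun f => (derivative f).eval z) h
  simp only [derivative_expand, derivative_mul, eval_add, eval_mul, expand_eval, eval_natCast,
    eval_pow, eval_X] at h2
  exact h2.symm

theorem norm_prim {b : ℕ} (hb : b ≠ 0) {z : ℂ} (hz : z ∈ primitiveRoots b ℂ) : ‖z‖ = 1 :=
  (isPrimitiveRoot_of_mem_primitiveRoots hz).norm'_eq_one hb

theorem pow_inj {b p : ℕ} (hco : p.Coprime b) {z z' : ℂ} (hz : z ^ b = 1) (hz' : z' ^ b = 1)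
    (hb : b ≠ 0) (h : z ^ p = z' ^ p) : z = z' := by
  have h0 : z' ≠ 0 := by
    rintro rfl
    rw [zero_pow hb] at hz'
    exact zero_ne_one hz'
  have h1 : (z / z') ^ p = 1 := by
    rw [div_pow, h, div_self (pow_ne_zero _ h0)]
  have h2 : (z / z') ^ b = 1 := by rw [div_pow, hz, hz', div_one]
  have h3 : (z / z') ^ (p.gcd b) = 1 := pow_gcd_eq_one.mpr ⟨h1, h2⟩
  rw [Nat.Coprime.gcd_eq_one hco, pow_one] at h3
  exact (div_eq_one_iff_eq h0).mp h3

theorem prod_pow (b p : ℕ) (hb : b ≠ 0) (hco : p.Coprime b) (F : ℂ → ℝ) :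
    ∏ z ∈ primitiveRoots b ℂ, F (z ^ p) = ∏ z ∈ primitiveRoots b ℂ, F z := by
  have hinj : Set.InjOn (fun z : ℂ => z ^ p) (primitiveRoots b ℂ : Set ℂ) := by
    intro z hz z' hz' h
    exact pow_inj hco (isPrimitiveRoot_of_mem_primitiveRoots hz).pow_eq_one
      (isPrimitiveRoot_of_mem_primitiveRoots hz').pow_eq_one hb h
  have himg : (primitiveRoots b ℂ).image (fun z : ℂ => z ^ p) = primitiveRoots b ℂ := by
    apply Finset.eq_of_subset_of_card_le
    · intro w hw
      obtain ⟨z, hz, rfl⟩ := Finset.mem_image.mp hw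
      rw [mem_primitiveRoots (Nat.pos_of_ne_zero hb)] at hz ⊢
      exact hz.pow_of_coprime p hco
    · rw [Finset.card_image_of_injOn hinj]
  conv_rhs => rw [← himg]
  rw [Finset.prod_image hinj]

theorem prod_pow2 (b p : ℕ) (hb : b ≠ 0) (hp : p.Prime) (hco : p.Coprime b) (F : ℂ → ℝ) :
    ∏ w ∈ primitiveRoots (b * p) ℂ, F (w ^ p) = (∏ z ∈ primitiveRoots b ℂ, F z) ^ (p - 1) := by
  have hbp : 0 < b * p := Nat.mul_pos (Nat.pos_of_ne_zero hb) hp.pos
  have hinj : Set.InjOn (fun q : ℂ × ℂ => q.1 * q.2)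
      ((primitiveRoots b ℂ ×ˢ primitiveRoots p ℂ : Finset (ℂ × ℂ)) : Set (ℂ × ℂ)) := by
    rintro ⟨z, ζ⟩ hz ⟨z', ζ'⟩ hz' h
    simp only [Finset.coe_product, Set.mem_prod, Finset.mem_coe] at hz hz'
    simp only at h
    have a1 := isPrimitiveRoot_of_mem_primitiveRoots hz.1
    have a2 := isPrimitiveRoot_of_mem_primitiveRoots hz.2
    have a3 := isPrimitiveRoot_of_mem_primitiveRoots hz'.1
    have a4 := isPrimitiveRoot_of_mem_primitiveRoots hz'.2
    have h1 : z ^ p = z' ^ p := by
      have := congrArg (fun x => x ^ p) h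
      simp only [mul_pow, a2.pow_eq_one, a4.pow_eq_one, mul_one] at this
      exact this
    have h2 : z = z' := pow_inj hco a1.pow_eq_one a3.pow_eq_one hb h1
    subst h2
    have h3 : z ≠ 0 := a1.ne_zero hb
    rw [mul_right_inj' h3] at h
    rw [h]
  have himg : (primitiveRoots b ℂ ×ˢ primitiveRoots p ℂ).image (fun q : ℂ × ℂ => q.1 * q.2) =
      primitiveRoots (b * p) ℂ := by
    apply Finset.eq_of_subset_of_card_le
    · intro w hw
      obtain ⟨⟨z, ζ⟩, hz, rfl⟩ := Finset.mem_image.mp hw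
      rw [Finset.mem_product] at hz
      have a1 := isPrimitiveRoot_of_mem_primitiveRoots hz.1
      have a2 := isPrimitiveRoot_of_mem_primitiveRoots hz.2
      rw [mem_primitiveRoots hbp]
      have h1 : orderOf (z * ζ) = b * p := by
        rw [(Commute.all z ζ).orderOf_mul_eq_mul_orderOf_of_coprime
          (by rw [← a1.eq_orderOf, ← a2.eq_orderOf]; exact hco.symm),
          ← a1.eq_orderOf, ← a2.eq_orderOf]
      rw [← h1]
      exact IsPrimitiveRoot.orderOf _
    · rw [Finset.card_image_of_injOn hinj, Finset.card_product,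
        (Complex.isPrimitiveRoot_exp b hb).card_primitiveRoots,
        (Complex.isPrimitiveRoot_exp p hp.ne_zero).card_primitiveRoots,
        (Complex.isPrimitiveRoot_exp (b * p) hbp.ne').card_primitiveRoots,
        Nat.totient_mul hco.symm]
  rw [← himg, Finset.prod_image hinj, Finset.prod_product]
  rw [← prod_pow b p hb hco F, ← Finset.prod_pow]
  refine Finset.prod_congr rfl fun z hz => ?_
  have h1 : ∀ ζ ∈ primitiveRoots p ℂ, F ((z * ζ) ^ p) = F (z ^ p) := by
    intro ζ hζ
    rw [mul_pow, (isPrimitiveRoot_of_mem_primitiveRoots hζ).pow_eq_one, mul_one]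
  rw [Finset.prod_congr rfl h1, Finset.prod_const,
    (Complex.isPrimitiveRoot_exp p hp.ne_zero).card_primitiveRoots, Nat.totient_prime hp]

theorem step1 (b p : ℕ) (hb : b ≠ 0) (hp : p.Prime) (hpb : ¬ p ∣ b) :
    RR b (b * p) = (p : ℝ) ^ b.totient := by
  have hco : p.Coprime b := (Nat.Prime.coprime_iff_not_dvd hp).mpr hpb
  have hbp : b * p ≠ 0 := Nat.mul_ne_zero hb hp.ne_zero
  have hne : b ≠ b * p := by
    intro h
    have h1 : b * 1 = b * p := by rw [mul_one]; exact h
    exact hp.one_lt.ne (Nat.eq_of_mul_eq_mul_left (Nat.pos_of_ne_zero hb) h1)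
  have h1 : RR b (b * p) * RR b b = (p : ℝ) ^ b.totient * RR b b := by
    rw [RR_ne b (b * p) hbp hne, RR_self b hb, ← Finset.prod_mul_distrib]
    have h2 : ∀ z ∈ primitiveRoots b ℂ, ‖(cyclotomic (b * p) ℂ).eval z‖ *
        ‖(derivative (cyclotomic b ℂ)).eval z‖ =
        ‖(derivative (cyclotomic b ℂ)).eval (z ^ p)‖ * p := by
      intro z hz
      have h3 := key b p hp hpb z
      rw [eval_cyc_zero b hb z hz, mul_zero, zero_add] at h3
      rw [← norm_mul, h3, norm_mul, norm_mul, norm_pow, norm_prim hb hz, one_pow, mul_one,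
        Complex.norm_natCast]
    rw [Finset.prod_congr rfl h2, Finset.prod_mul_distrib, Finset.prod_const,
      (Complex.isPrimitiveRoot_exp b hb).card_primitiveRoots,
      prod_pow b p hb hco (fun z => ‖(derivative (cyclotomic b ℂ)).eval z‖), mul_comm]
  exact mul_right_cancel₀ (RR_pos b b).ne' h1

theorem step2 (b p : ℕ) (hb : b ≠ 0) (hp : p.Prime) (hpb : ¬ p ∣ b) :
    RR (b * p) (b * p) * RR (b * p) b = (p : ℝ) ^ (b * p).totient * RR b b ^ (p - 1) := by
  have hco : p.Coprime b := (Nat.Prime.coprime_iff_not_dvd hp).mpr hpb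
  have hbp : b * p ≠ 0 := Nat.mul_ne_zero hb hp.ne_zero
  have hne : b * p ≠ b := by
    intro h
    have h1 : b * p = b * 1 := by rw [mul_one]; exact h
    exact hp.one_lt.ne' (Nat.eq_of_mul_eq_mul_left (Nat.pos_of_ne_zero hb) h1)
  rw [RR_ne (b * p) b hb hne, RR_self (b * p) hbp, ← Finset.prod_mul_distrib]
  have h2 : ∀ z ∈ primitiveRoots (b * p) ℂ, ‖(derivative (cyclotomic (b * p) ℂ)).eval z‖ *
      ‖(cyclotomic b ℂ).eval z‖ =
      ‖(derivative (cyclotomic b ℂ)).eval (z ^ p)‖ * p := by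
    intro z hz
    have h3 := key b p hp hpb z
    rw [eval_cyc_zero (b * p) hbp z hz, zero_mul, add_zero] at h3
    rw [← norm_mul, h3, norm_mul, norm_mul, norm_pow, norm_prim hbp hz, one_pow, mul_one,
      Complex.norm_natCast]
  rw [Finset.prod_congr rfl h2, Finset.prod_mul_distrib, Finset.prod_const,
    (Complex.isPrimitiveRoot_exp (b * p) hbp).card_primitiveRoots,
    prod_pow2 b p hb hp hco (fun z => ‖(derivative (cyclotomic b ℂ)).eval z‖), mul_comm,
    ← RR_self b hb]

theorem diag (b : ℕ) : Squarefree b → Real.log (RR b b) = (b.totient : ℝ) * Real.log b -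
    ∑ p ∈ b.primeFactors, ((b / p).totient : ℝ) * Real.log p := by
  induction b using Nat.strong_induction_on with
  | _ b ih =>
    intro hb
    have hb0 : b ≠ 0 := hb.ne_zero
    by_cases h1 : b = 1
    · subst h1
      have h2 : RR 1 1 = 1 := by
        unfold RR
        refine Finset.prod_eq_one fun z hz => ?_
        have h3 : primitiveRoots 1 ℂ = {1} := by
          ext w
          rw [mem_primitiveRoots one_pos, IsPrimitiveRoot.one_right_iff, Finset.mem_singleton]
        rw [h3, Finset.mem_singleton] at hz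
        rw [h3, hz]
        simp
      rw [h2]
      simp
    · obtain ⟨p, hp, hpb⟩ := Nat.exists_prime_and_dvd h1
      obtain ⟨c, hc⟩ := hpb
      rw [mul_comm] at hc
      subst hc
      have hc0 : c ≠ 0 := left_ne_zero_of_mul hb0
      have hsq : Squarefree c := hb.of_mul_left
      have hpc : ¬ p ∣ c := by
        rintro ⟨e, rfl⟩
        have h5 : p * p ∣ p * e * p := ⟨e, by ring⟩
        exact hp.one_lt.ne' (Nat.isUnit_iff.mp (hb p h5))
      have hco : c.Coprime p := ((Nat.Prime.coprime_iff_not_dvd hp).mpr hpc).symm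
      have hlt : c < c * p := by
        have := hp.one_lt
        have hcp : 0 < c := Nat.pos_of_ne_zero hc0
        nlinarith
      have hI := ih c hlt hsq
      have h2 := step2 c p hc0 hp hpc
      have hne : c * p ≠ c := hlt.ne'
      rw [RR_comm (c * p) c hne, step1 c p hc0 hp hpc] at h2
      have hp0 : (0 : ℝ) < p := by exact_mod_cast hp.pos
      have h3 := congrArg Real.log h2
      rw [Real.log_mul (RR_pos _ _).ne' (pow_pos hp0 _).ne',
        Real.log_mul (pow_pos hp0 _).ne' (pow_pos (RR_pos _ _) _).ne', Real.log_pow, Real.log_pow,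
        Real.log_pow, hI] at h3
      have htot : (c * p).totient = c.totient * (p - 1) := by
        rw [Nat.totient_mul hco, Nat.totient_prime hp]
      have hcp : ((c * p : ℕ) : ℝ) = c * p := by push_cast; ring
      have hc0' : (c : ℝ) ≠ 0 := by exact_mod_cast hc0
      have hpf : (c * p).primeFactors = insert p c.primeFactors := by
        rw [Nat.primeFactors_mul hc0 hp.ne_zero, hp.primeFactors, Finset.union_comm]
        rfl
      have hpn : p ∉ c.primeFactors := fun h => hpc (Nat.dvd_of_mem_primeFactors h)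
      rw [hpf, Finset.sum_insert hpn, Nat.mul_div_cancel _ hp.pos, hcp,
        Real.log_mul hc0' hp0.ne']
      have hsum : ∑ q ∈ c.primeFactors, ((c * p / q).totient : ℝ) * Real.log q =
          ((p - 1 : ℕ) : ℝ) * ∑ q ∈ c.primeFactors, ((c / q).totient : ℝ) * Real.log q := by
        rw [Finset.mul_sum]
        refine Finset.sum_congr rfl fun q hq => ?_
        have hqc : q ∣ c := Nat.dvd_of_mem_primeFactors hq
        obtain ⟨e, he⟩ := hqc
        have hq0 : 0 < q := (Nat.prime_of_mem_primeFactors hq).pos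
        have he1 : c * p / q = e * p := by
          rw [he, mul_assoc, Nat.mul_div_cancel_left _ hq0]
        have he2 : c / q = e := by rw [he, Nat.mul_div_cancel_left _ hq0]
        have he3 : e.Coprime p := Nat.Coprime.coprime_dvd_left ⟨q, by rw [he, mul_comm]⟩ hco
        rw [he1, he2, Nat.totient_mul he3, Nat.totient_prime hp]
        push_cast
        ring
      rw [hsum]
      have htot' : ((c * p).totient : ℝ) = (c.totient : ℝ) * ((p - 1 : ℕ) : ℝ) := by
        rw [htot]
        push_cast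
        ring
      rw [htot'] at h3 ⊢
      linarith

theorem t_RES2 : S_RES2 := by
  refine ⟨fun b p hsq hp => ?_, diag⟩
  have hbp : b * p ≠ 0 := hsq.ne_zero
  have hb : b ≠ 0 := left_ne_zero_of_mul hbp
  have hpb : ¬ p ∣ b := by
    rintro ⟨e, rfl⟩
    have h5 : p * p ∣ p * e * p := ⟨e, by ring⟩
    exact hp.one_lt.ne' (Nat.isUnit_iff.mp (hsq p h5))
  have hne : b ≠ b * p := by
    intro h
    have h1 : b * 1 = b * p := by rw [mul_one]; exact h
    exact hp.one_lt.ne (Nat.eq_of_mul_eq_mul_left (Nat.pos_of_ne_zero hb) h1)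
  rw [← RR_comm b (b * p) hne, step1 b p hb hp hpb, Real.log_pow]
  exact ⟨rfl, rfl⟩

end Pool.Agent.Q79.ML
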